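import Pool.Agent.Helper12.RQ.Polar

/-!
# Lipschitz test functions for the capacity of a segment
-/

set_option autoImplicit false

open MeasureTheory Set Filter Topology Metric
open Pool.Agent.Helper12.RQ

open scoped ENNReal NNReal ContDiff

namespace Pool.Agent.Helper32.RQ

theorem lint_aff {n : ℕ} (a : E n) {L : ℝ} (hL : 0 < L) (g : E n → ℝ≥0∞) (hg : Measurable g) :
    ∫⁻ y, g (a + L • y) = ENNReal.ofReal ((L ^ n)⁻¹) * ∫⁻ x, g x := by
  have hm : Measurable fun z : E n => g (a + z) := hg.comp (measurable_const_add a)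
  have h1 : ∫⁻ z, g (a + z) ∂(Measure.map (fun y : E n => L • y) volume) =
      ∫⁻ y, g (a + L • y) := lintegral_map hm (measurable_const_smul L)
  rw [← h1, Measure.map_addHaar_smul volume hL.ne', lintegral_smul_measure,
    lintegral_add_left_eq_self, finrank_euclideanSpace, Fintype.card_fin, abs_of_pos (by positivity)]
  rfl

theorem en_const_mul {n : ℕ} {p : ℝ} (hp : 0 ≤ p) (c : ℝ) (w : E n → ℝ) (hw : Differentiable ℝ w) :
    en p (fun x => c * w x) = ‖c‖ₑ ^ p * en p w := by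
  unfold en
  rw [← lintegral_const_mul]
  · refine lintegral_congr fun x => ?_
    rw [fderiv_const_mul (hw x), enorm_smul, ENNReal.mul_rpow_of_nonneg _ _ hp]
  · exact ((measurable_fderiv ℝ w).enorm).pow_const p

theorem en_aff {n : ℕ} {p : ℝ} (hp : 0 ≤ p) (a : E n) {L : ℝ} (hL : 0 < L) (u : E n → ℝ) :
    en p (fun y => u (a + L • y)) = ENNReal.ofReal (L ^ (p - n)) * en p u := by
  have hm : Measurable fun x : E n => ‖fderiv ℝ u x‖ₑ ^ p :=
    ((measurable_fderiv ℝ u).enorm).pow_const p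
  have h1 : ∀ y : E n, fderiv ℝ (fun y => u (a + L • y)) y = L • fderiv ℝ u (a + L • y) := by
    intro y
    have h2 := fderiv_comp_smul (𝕜 := ℝ) (f := fun z : E n => u (a + z)) (x := y) L
    rw [h2, fderiv_comp_add_left]
  unfold en
  simp_rw [h1]
  have h3 : ∀ y : E n, ‖L • fderiv ℝ u (a + L • y)‖ₑ ^ p =
      ENNReal.ofReal (L ^ p) * ‖fderiv ℝ u (a + L • y)‖ₑ ^ p := by
    intro y
    rw [enorm_smul, ENNReal.mul_rpow_of_nonneg _ _ hp, Real.enorm_eq_ofReal hL.le,
      ENNReal.ofReal_rpow_of_nonneg hL.le hp]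
  simp_rw [h3]
  rw [lintegral_const_mul]
  · rw [lint_aff a hL (fun x : E n => ‖fderiv ℝ u x‖ₑ ^ p) hm, ← mul_assoc,
      ← ENNReal.ofReal_mul (by positivity)]
    congr 2
    rw [Real.rpow_sub hL, Real.rpow_natCast, div_eq_mul_inv]
  · exact hm.comp ((measurable_const_smul L).const_add a)

theorem segCap_le_lip (h : StmtMOL) {n : ℕ} {p : ℝ} (hp : 1 ≤ p) {v : E n → ℝ} {C : ℝ≥0}
    (hv : LipschitzWith C v) (hc : HasCompactSupport v) {e : E n} (he : ‖e‖ = 1)
    (h1 : ∀ t ∈ Icc (0 : ℝ) 1, 1 ≤ v (t • e)) : segCap n p ≤ en p v := by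
  have hp0 : 0 ≤ p := by linarith
  have key : ∀ ε ∈ Ioo (0 : ℝ) 1, segCap n p * ENNReal.ofReal (1 - ε) ^ p ≤ en p v := by
    intro ε hε
    obtain ⟨w, hw1, hw2, hw3, hw4⟩ := h n p hp v C hv hc ε hε.1
    have hpos : 0 < 1 - ε := by linarith [hε.2]
    have hs : segCap n p ≤ en p (fun x => (1 - ε)⁻¹ * w x) := by
      unfold segCap
      refine iInf₂_le (fun x => (1 - ε)⁻¹ * w x) ⟨contDiff_const.mul hw1, hw2.mul_left, e, he, ?_⟩
      intro t ht
      have h2 := abs_le.1 (hw3 (t • e))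
      have h3 := h1 t ht
      show 1 ≤ (1 - ε)⁻¹ * w (t • e)
      rw [inv_mul_eq_div, le_div_iff₀ hpos]
      linarith [h2.1]
    rw [en_const_mul hp0 _ w (hw1.differentiable (by simp))] at hs
    have h4 : ‖(1 - ε)⁻¹‖ₑ ^ p * ENNReal.ofReal (1 - ε) ^ p = 1 := by
      rw [Real.enorm_eq_ofReal (by positivity), ← ENNReal.mul_rpow_of_nonneg _ _ hp0,
        ← ENNReal.ofReal_mul (by positivity), inv_mul_cancel₀ hpos.ne', ENNReal.ofReal_one,
        ENNReal.one_rpow]
    calc segCap n p * ENNReal.ofReal (1 - ε) ^ p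
        ≤ (‖(1 - ε)⁻¹‖ₑ ^ p * en p w) * ENNReal.ofReal (1 - ε) ^ p := by gcongr
      _ = (‖(1 - ε)⁻¹‖ₑ ^ p * ENNReal.ofReal (1 - ε) ^ p) * en p w := by ring
      _ = en p w := by rw [h4, one_mul]
      _ ≤ en p v := hw4
  have hlim : Tendsto (fun ε : ℝ => segCap n p * ENNReal.ofReal (1 - ε) ^ p) (𝓝[>] 0)
      (𝓝 (segCap n p * 1)) := by
    refine ENNReal.Tendsto.const_mul ?_ (Or.inl one_ne_zero)
    have h5 : Tendsto (fun ε : ℝ => ENNReal.ofReal (1 - ε)) (𝓝[>] 0) (𝓝 1) := by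
      have h6 : Tendsto (fun ε : ℝ => 1 - ε) (𝓝[>] 0) (𝓝 (1 - 0)) :=
        (tendsto_const_nhds.sub tendsto_id).mono_left nhdsWithin_le_nhds
      have h7 := ENNReal.tendsto_ofReal h6
      simpa using h7
    have h8 := h5.ennrpow_const p
    simpa using h8
  rw [mul_one] at hlim
  refine le_of_tendsto hlim ?_
  filter_upwards [Ioo_mem_nhdsGT (zero_lt_one' ℝ)] with ε hε
  exact key ε hε

theorem seg (h : StmtMOL) : StmtSEG := by
  intro n p hp u C hu hc a e L he hL h1
  have hp0 : 0 ≤ p := by linarith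
  have hv : LipschitzWith (C * ‖L‖₊) (fun y : E n => u (a + L • y)) := by
    refine hu.comp (g := fun y : E n => a + L • y) ?_
    refine LipschitzWith.of_dist_le_mul fun x y => ?_
    rw [dist_add_left, dist_smul₀]
    rfl
  have hcv : HasCompactSupport (fun y : E n => u (a + L • y)) := by
    have hh : HasCompactSupport (u ∘ ((Homeomorph.smulOfNeZero L hL.ne').trans
      (Homeomorph.addLeft a))) := hc.comp_homeomorph _
    exact hh
  have h2 : ∀ t ∈ Icc (0 : ℝ) 1, 1 ≤ u (a + L • (t • e)) := by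
    intro t ht
    rw [smul_smul]
    exact h1 _ ⟨mul_nonneg hL.le ht.1, by nlinarith [ht.2]⟩
  have h3 := segCap_le_lip h hp hv hcv he h2
  rw [en_aff hp0 a hL u] at h3
  calc segCap n p * ENNReal.ofReal (L ^ (n - p))
      ≤ (ENNReal.ofReal (L ^ (p - n)) * en p u) * ENNReal.ofReal (L ^ (n - p)) := by gcongr
    _ = (ENNReal.ofReal (L ^ (p - n)) * ENNReal.ofReal (L ^ (n - p))) * en p u := by ring
    _ = en p u := by
      rw [← ENNReal.ofReal_mul (by positivity), ← Real.rpow_add hL]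
      simp

end Pool.Agent.Helper32.RQ
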